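import Pool.Agent.H329R3.NU.Stmts

set_option autoImplicit false

open MeasureTheory Set Filter Topology

namespace Pool.Agent.H636R3.NU

open Pool.Agent.H329R3.PM Pool.Agent.H329R3.NU

theorem contOn_W (h : ℝ × ℝ → ℝ) (hs : ContDiff ℝ 2 h) : ContinuousOn (W h) Om := by
  have h1 : Continuous (fun z => fderiv ℝ h z (1, 0)) :=
    (hs.continuous_fderiv (by norm_num)).clm_apply continuous_const
  unfold W dy
  apply ContinuousOn.add continuousOn_const
  apply h1.continuousOn.div (by fun_prop)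
  intro z hz
  have : 0 < z.1 := hz.1.1
  positivity

theorem contOn_Fl (κ : ℝ) (h : ℝ × ℝ → ℝ) (hs : ContDiff ℝ 2 h) : ContinuousOn (Fl κ h) Om := by
  have h1 : Continuous (fun z => fderiv ℝ h z (0, 1)) :=
    (hs.continuous_fderiv (by norm_num)).clm_apply continuous_const
  unfold Fl dt
  apply ContinuousOn.sub
  · exact continuousOn_const.mul (contOn_W h hs)
  · apply h1.continuousOn.div (by fun_prop)
    intro z hz
    have : 0 < z.1 := hz.1.1
    positivity

theorem bdd_W (h : ℝ × ℝ → ℝ) (hs : ContDiff ℝ 2 h) (hc : HasCompactSupport h)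
    (hsupp : tsupport h ⊆ Om) : ∃ B, 0 < B ∧ ∀ z ∈ Om, |W h z| ≤ B := by
  obtain ⟨B, hB⟩ := hc.isCompact.exists_bound_of_continuousOn ((contOn_W h hs).mono hsupp)
  refine ⟨max B 1, lt_max_of_lt_right one_pos, fun z hz => ?_⟩
  by_cases hz' : z ∈ tsupport h
  · exact (hB z hz').trans (le_max_left _ _)
  · have h1 : fderiv ℝ h z = 0 := by
      by_contra hne
      exact hz' (support_fderiv_subset ℝ hne)
    have h2 : W h z = 1 := by
      unfold W dy
      rw [h1]
      simp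
    rw [h2, abs_one]
    exact le_max_right _ _

theorem taskStep : Pool.Agent.H329R3.NU.TaskStep := by
  intro hTh hSel hPert hGain A κ h hA hκ hSt ε hε
  obtain ⟨δ, hδ, hstrict⟩ := hSt.strict
  have hs := hSt.smooth
  have hOmQc : Om ⊆ Qc := fun z hz =>
    ⟨⟨hz.1.1, hz.1.2.le⟩, ⟨hz.2.1.le, hz.2.2.le⟩⟩
  have hmOm : MeasurableSet Om := measurableSet_Ioo.prod measurableSet_Ioo
  have hOmfin : volume Om ≠ ⊤ := by
    have : volume Om = volume (Ioo (0:ℝ) 1) * volume (Ioo (0:ℝ) 1) := by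
      unfold Om
      rw [Measure.volume_eq_prod, Measure.prod_prod]
    rw [this]
    simp
  have hWc := contOn_W h hs
  have hFlc := contOn_Fl κ h hs
  have hThc := hTh A κ h hs hSt.cpt hSt.supp
  have hWpos : ∀ z ∈ Om, 0 < W h z := fun z hz => hδ.trans_le (hstrict z (hOmQc hz)).1
  have hThpos : ∀ z ∈ Om, 0 < Th A κ h z := fun z hz =>
    hδ.trans_le (hstrict z (hOmQc hz)).2.2.1
  have hden : ∀ z ∈ Om, 0 < Th A κ h z ^ 2 * W h z := fun z hz =>
    mul_pos (pow_pos (hThpos z hz) 2) (hWpos z hz)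
  have halc : ContinuousOn (al A κ h) Om := by
    unfold al
    apply ContinuousOn.div_const
    apply ContinuousOn.sub continuousOn_const
    exact (hFlc.pow 2).div ((hThc.pow 2).mul hWc) fun z hz => (hden z hz).ne'
  have hal0 : ∀ z ∈ Om, 0 ≤ al A κ h z := by
    intro z hz
    unfold al
    have h1 : Fl κ h z ^ 2 / (Th A κ h z ^ 2 * W h z) ≤ 1 := by
      rw [div_le_one (hden z hz)]
      have h2 := (hstrict z (hOmQc hz)).2.2.2
      have h3 := hden z hz
      nlinarith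
    linarith
  have hal1 : ∀ z ∈ Om, al A κ h z ≤ 1 / 2 := by
    intro z hz
    unfold al
    have h1 : 0 ≤ Fl κ h z ^ 2 / (Th A κ h z ^ 2 * W h z) :=
      div_nonneg (sq_nonneg _) (hden z hz).le
    linarith
  obtain ⟨B, hB, hWB⟩ := bdd_W h hs hSt.cpt hSt.supp
  have halW : ∀ z ∈ Om, (W h z - (Fl κ h z / Th A κ h z) ^ 2) ^ 2 * z.1 ^ 2 =
      4 * (al A κ h z ^ 2 * W h z ^ 2 * z.1 ^ 2) := by
    intro z hz
    unfold al
    have h1 := (hWpos z hz).ne'
    have h2 := (hThpos z hz).ne'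
    field_simp
    ring
  have hD : D A κ h = 4 * ∫ z in Om, al A κ h z ^ 2 * W h z ^ 2 * z.1 ^ 2 := by
    unfold D
    rw [← integral_const_mul]
    exact setIntegral_congr_fun hmOm halW
  set V : ℝ := volume.real Om with hV
  have hV0 : 0 ≤ V := measureReal_nonneg
  set ε1 : ℝ := ε / (2 * (B ^ 2 * (V + 1))) with hε1
  have hε1pos : 0 < ε1 := by positivity
  set ε2 : ℝ := ε / (2 * B ^ 2) with hε2
  have hε2pos : 0 < ε2 := by positivity
  obtain ⟨K, hKsub, hKc, hKm⟩ := hmOm.exists_isCompact_sdiff_lt hOmfin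
    (ε := ENNReal.ofReal ε2) (by
      rw [Ne, ENNReal.ofReal_eq_zero, not_le]; exact hε2pos)
  obtain ⟨a, ha2, hacpt, hasupp, ha0, hale, haK⟩ := hSel (al A κ h) halc hal0 ε1 hε1pos K hKc hKsub
  have hAmp : Amp A κ h a := ⟨ha2, hacpt, hasupp, ha0, hale⟩
  -- integrability
  have hint : ∀ b : ℝ × ℝ → ℝ, ContinuousOn b Om → (∀ z ∈ Om, 0 ≤ b z ∧ b z ≤ 1 / 2) →
      IntegrableOn (fun z : ℝ × ℝ => b z ^ 2 * W h z ^ 2 * z.1 ^ 2) Om := by
    intro b hb hb1
    have hfm : IsFiniteMeasure (volume.restrict Om) :=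
      ⟨by rw [Measure.restrict_apply_univ]; exact hOmfin.lt_top⟩
    refine Integrable.of_bound (C := B ^ 2) ?_ ?_
    · apply ContinuousOn.aestronglyMeasurable _ hmOm
      exact ((hb.pow 2).mul (hWc.pow 2)).mul (by fun_prop)
    · rw [ae_restrict_iff' hmOm]
      refine Eventually.of_forall fun z hz => ?_
      have h1 : b z ^ 2 ≤ 1 := by
        have := hb1 z hz
        nlinarith
      have h2 : W h z ^ 2 ≤ B ^ 2 := by
        rw [← sq_abs]
        exact pow_le_pow_left₀ (abs_nonneg _) (hWB z hz) 2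
      have h3 : z.1 ^ 2 ≤ 1 := by
        have h4 : 0 < z.1 := hz.1.1
        have h5 : z.1 < 1 := hz.1.2
        nlinarith
      rw [Real.norm_of_nonneg (by positivity)]
      calc b z ^ 2 * W h z ^ 2 * z.1 ^ 2 ≤ 1 * B ^ 2 * 1 := by gcongr
        _ = B ^ 2 := by ring
  have hab : ∀ z ∈ Om, 0 ≤ a z ∧ a z ≤ 1 / 2 := fun z hz =>
    ⟨ha0 z, (hale z hz).trans (hal1 z hz)⟩
  have hI1 := hint (al A κ h) halc fun z hz => ⟨hal0 z hz, hal1 z hz⟩
  have hI2 := hint a ha2.continuous.continuousOn hab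
  have hI3 : IntegrableOn (fun z : ℝ × ℝ => al A κ h z ^ 2 * W h z ^ 2 * z.1 ^ 2 -
      a z ^ 2 * W h z ^ 2 * z.1 ^ 2) Om := hI1.sub hI2
  have key : (∫ z in Om, al A κ h z ^ 2 * W h z ^ 2 * z.1 ^ 2) -
      (∫ z in Om, a z ^ 2 * W h z ^ 2 * z.1 ^ 2) ≤ ε := by
    rw [← integral_sub hI1 hI2]
    have hKmeas : MeasurableSet K := hKc.measurableSet
    have hsplit : (∫ z in Om, (al A κ h z ^ 2 * W h z ^ 2 * z.1 ^ 2 -
        a z ^ 2 * W h z ^ 2 * z.1 ^ 2)) =
        (∫ z in K, (al A κ h z ^ 2 * W h z ^ 2 * z.1 ^ 2 -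
        a z ^ 2 * W h z ^ 2 * z.1 ^ 2)) + ∫ z in Om \ K, (al A κ h z ^ 2 * W h z ^ 2 * z.1 ^ 2 -
        a z ^ 2 * W h z ^ 2 * z.1 ^ 2) := by
      rw [← setIntegral_union disjoint_sdiff_right (hmOm.diff hKmeas) (hI3.mono_set hKsub)
        (hI3.mono_set sdiff_subset), union_sdiff_cancel hKsub]
    rw [hsplit]
    have hpt : ∀ z ∈ Om, ∀ c : ℝ, al A κ h z - a z ≤ c → 
        ‖al A κ h z ^ 2 * W h z ^ 2 * z.1 ^ 2 - a z ^ 2 * W h z ^ 2 * z.1 ^ 2‖ ≤ c * B ^ 2 := by
      intro z hz c hc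
      have h0 := hal0 z hz
      have h1 := hal1 z hz
      have h2 := hab z hz
      have h3 := hale z hz
      have h2' : W h z ^ 2 ≤ B ^ 2 := by
        rw [← sq_abs]
        exact pow_le_pow_left₀ (abs_nonneg _) (hWB z hz) 2
      have h3' : z.1 ^ 2 ≤ 1 := by
        have h4 : 0 < z.1 := hz.1.1
        have h5 : z.1 < 1 := hz.1.2
        nlinarith
      have e : al A κ h z ^ 2 * W h z ^ 2 * z.1 ^ 2 - a z ^ 2 * W h z ^ 2 * z.1 ^ 2 =
          ((al A κ h z - a z) * (al A κ h z + a z)) * W h z ^ 2 * z.1 ^ 2 := by ring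
      have hA0 : 0 ≤ al A κ h z - a z := by linarith
      have hA1 : 0 ≤ al A κ h z + a z := by linarith [h2.1]
      have hc0 : 0 ≤ c := hA0.trans hc
      rw [e, Real.norm_of_nonneg (by positivity)]
      calc ((al A κ h z - a z) * (al A κ h z + a z)) * W h z ^ 2 * z.1 ^ 2
          ≤ (c * 1) * B ^ 2 * 1 := by
            gcongr
            linarith [h2.2]
        _ = c * B ^ 2 := by ring
    have hb1 : (∫ z in K, (al A κ h z ^ 2 * W h z ^ 2 * z.1 ^ 2 -
        a z ^ 2 * W h z ^ 2 * z.1 ^ 2)) ≤ ε / 2 := by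
      have h1 := norm_setIntegral_le_of_norm_le_const (μ := volume) (s := K)
        (f := fun z : ℝ × ℝ => al A κ h z ^ 2 * W h z ^ 2 * z.1 ^ 2 -
        a z ^ 2 * W h z ^ 2 * z.1 ^ 2) (C := ε1 * B ^ 2)
        (lt_of_le_of_lt (measure_mono hKsub) hOmfin.lt_top)
        (fun z hz => hpt z (hKsub hz) ε1 (by linarith [haK z hz]))
      have h2 : volume.real K ≤ V := measureReal_mono hKsub hOmfin
      have h3 : ε1 * B ^ 2 * volume.real K ≤ ε / 2 := by
        calc ε1 * B ^ 2 * volume.real K ≤ ε1 * B ^ 2 * (V + 1) := by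
              gcongr
              linarith
          _ = ε / 2 := by
              rw [hε1]
              have : V + 1 ≠ 0 := by positivity
              field_simp
      exact (le_abs_self _).trans (h1.trans h3)
    have hb2 : (∫ z in Om \ K, (al A κ h z ^ 2 * W h z ^ 2 * z.1 ^ 2 -
        a z ^ 2 * W h z ^ 2 * z.1 ^ 2)) ≤ ε / 2 := by
      have h1 := norm_setIntegral_le_of_norm_le_const (μ := volume) (s := Om \ K)
        (f := fun z : ℝ × ℝ => al A κ h z ^ 2 * W h z ^ 2 * z.1 ^ 2 -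
        a z ^ 2 * W h z ^ 2 * z.1 ^ 2) (C := 1 * B ^ 2)
        (lt_of_le_of_lt (measure_mono sdiff_subset) hOmfin.lt_top)
        (fun z hz => hpt z hz.1 1 (by linarith [hal1 z hz.1, ha0 z]))
      have h2 : volume.real (Om \ K) ≤ ε2 := by
        rw [measureReal_def]
        exact ENNReal.toReal_le_of_le_ofReal hε2pos.le hKm.le
      have h3 : 1 * B ^ 2 * volume.real (Om \ K) ≤ ε / 2 := by
        calc 1 * B ^ 2 * volume.real (Om \ K) ≤ 1 * B ^ 2 * ε2 := by gcongr
          _ = ε / 2 := by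
              rw [hε2]
              field_simp
      exact (le_abs_self _).trans (h1.trans h3)
    linarith
  obtain ⟨n1, hn1⟩ := hPert A κ h a hA hκ hSt hAmp ε hε
  obtain ⟨n2, hn2⟩ := hGain A κ h a hA hκ hSt hAmp (ε / 2) (by positivity)
  obtain ⟨hS, hN⟩ := hn1 (max n1 n2 + 1) ((le_max_left _ _).trans (Nat.le_succ _)) (Nat.succ_pos _)
  have hJ := hn2 (max n1 n2 + 1) ((le_max_right _ _).trans (Nat.le_succ _)) (Nat.succ_pos _)
  refine ⟨pert a h (max n1 n2 + 1), hS, hN, ?_⟩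
  rw [hD]
  linarith

end Pool.Agent.H636R3.NU
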